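import Pool.Agent.helper10.QT.SpecZ

/-! Project AT (MP_bf63dc_nt), row GQN: the ladder for shifted primes (theorem (b')). -/

set_option autoImplicit false

namespace Pool.Agent.AT

open Finset Pool.Agent.helper85.FC

/-- representatives of the cosets -/
theorem GQN_reps (G H : Subgroup ℚˣ) (m : ℕ) (hm : m ≠ 0) (h : H.relIndex G = m) :
    ∃ g : Fin m → ℚˣ, (∀ p, g p ∈ G) ∧ ∀ p q, p ≠ q → g p / g q ∉ H := by
  have hc : Nat.card (↥G ⧸ H.subgroupOf G) = m := h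
  have hfin : Finite (↥G ⧸ H.subgroupOf G) := Nat.finite_of_card_ne_zero (by rw [hc]; exact hm)
  let e : (↥G ⧸ H.subgroupOf G) ≃ Fin m := Finite.equivFinOfCardEq hc
  refine ⟨fun p => ((Quotient.out (e.symm p) : ↥G) : ℚˣ), fun p => (Quotient.out (e.symm p) : ↥G).2,
    fun p q hpq hmem => hpq ?_⟩
  have h1 : (Quotient.out (e.symm q) : ↥G)⁻¹ * (Quotient.out (e.symm p) : ↥G) ∈ H.subgroupOf G := by
    rw [Subgroup.mem_subgroupOf]
    have h2 : (((Quotient.out (e.symm q) : ↥G)⁻¹ * (Quotient.out (e.symm p) : ↥G) : ↥G) : ℚˣ) =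
        ((Quotient.out (e.symm p) : ↥G) : ℚˣ) / ((Quotient.out (e.symm q) : ↥G) : ℚˣ) := by
      push_cast
      rw [div_eq_mul_inv, mul_comm]
    rw [h2]
    exact hmem
  have h3 := (QuotientGroup.eq (s := H.subgroupOf G)).2 h1
  have h4 : ∀ t : (↥G ⧸ H.subgroupOf G), ((Quotient.out t : ↥G) : ↥G ⧸ H.subgroupOf G) = t :=
    fun t => Quotient.out_eq t
  rw [h4, h4] at h3
  exact (e.symm.injective h3).symm

open Classical in
/-- the statement for a single `k` -/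
theorem GQN_one (h1 : GQL_stmt) (h2 : GQK_stmt) (hB : ∀ k : ℕ, 1 ≤ k → BOXk k) (k : ℕ) :
    ∃ C δ : ℝ, 0 < C ∧ 0 < δ ∧ (1 ≤ k → ∀ c : ℤ, c ≠ 0 → ∀ (H : Subgroup ℚˣ) (m : ℕ), H ≤ Gc c →
      (m = 2 ∨ m = 3) → H.relIndex (Gc c) = m → (∀ x ∈ Gc c, GoodR c x → x ∈ H) →
      ∀ (F : Fin k → Finset ℚˣ) (L : ℕ), 1 ≤ L → (∀ i, L ≤ #(F i)) → (∀ i, ∀ x ∈ F i, x ∈ H) →
      (#{x ∈ Fintype.piFinset F | ¬ Rich c (m * (1 / 4 + 1 / 500000)) x} : ℝ) ≤
        C * (∏ i, (#(F i) : ℝ)) * (L : ℝ) ^ (-δ)) := by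
  by_cases hk : 1 ≤ k
  swap
  · exact ⟨1, 1, one_pos, one_pos, fun h => absurd h hk⟩
  obtain ⟨K2, hK2⟩ := h1 k 2 hk (by norm_num) (hB (2 * k) (by omega))
  obtain ⟨K3, hK3⟩ := h1 k 3 hk (by norm_num) (hB (3 * k) (by omega))
  obtain ⟨C, δ, hC, hδ, hmain⟩ := h2 k (max K2 K3) hk
  refine ⟨C, δ, hC, hδ, fun _ c hc H m hH hm hidx hgood F L hL hF hFH => ?_⟩
  obtain ⟨g, hg1, hg2⟩ := GQN_reps (Gc c) H m (by omega) hidx
  refine hmain (H : Set ℚˣ) (Rich c (m * (1 / 4 + 1 / 500000))) ?_ F L hL hF hFH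
  intro X hX hXH hXd
  have key : ∀ (p q : Fin m), p ≠ q → ∀ i j, ∀ x ∈ X i, ∀ y ∈ X j,
      ¬ GoodR c ((g p * x / (g q * y) : ℚˣ) : ℚ) := by
    intro p q hpq i j x hx y hy hgd
    have hxH : x ∈ H := hXH i x hx
    have hyH : y ∈ H := hXH j y hy
    have hmem : g p * x / (g q * y) ∈ Gc c :=
      (Gc c).div_mem ((Gc c).mul_mem (hg1 p) (hH hxH)) ((Gc c).mul_mem (hg1 q) (hH hyH))
    have h3 : g p * x / (g q * y) ∈ H := hgood _ hmem hgd
    apply hg2 p q hpq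
    have h4 : g p / g q = (g p * x / (g q * y)) * (y / x) := by
      rw [mul_div_mul_comm, mul_assoc, div_mul_div_cancel, div_self', mul_one]
    rw [h4]
    exact H.mul_mem h3 (H.div_mem hyH hxH)
  rcases hm with rfl | rfl
  · rcases hK2 c hc g X hg1 (fun i => (le_max_left _ _).trans (hX i))
      (fun i x hx => hH (hXH i x hx)) hXd with h | ⟨p, q, hpq, i, j, x, hx, y, hy, hgd⟩
    · exact h
    · exact absurd hgd (key p q hpq i j x hx y hy)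
  · rcases hK3 c hc g X hg1 (fun i => (le_max_right _ _).trans (hX i))
      (fun i x hx => hH (hXH i x hx)) hXd with h | ⟨p, q, hpq, i, j, x, hx, y, hy, hgd⟩
    · exact h
    · exact absurd hgd (key p q hpq i j x hx y hy)

theorem GQN (h1 : GQL_stmt) (h2 : GQK_stmt) : GQN_stmt := by
  classical
  intro hB hR
  obtain ⟨K, hK⟩ := hR
  choose C δ hC hδ h using GQN_one h1 h2 hB
  refine ⟨C, δ, fun k => ⟨hC k, hδ k⟩, fun c hc => ?_⟩
  rcases hK c hc with ⟨H, hH, hidx, hgood, hprod, -⟩ | h5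
  · refine Or.inl ⟨H, H.relIndex (Gc c), hH, hidx, rfl, hgood, hprod, ?_⟩
    intro k hk F L hL hF hFH
    exact h k hk c hc H _ hH hidx rfl hgood F L hL hF hFH
  · exact Or.inr h5

end Pool.Agent.AT
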